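import Pool.Agent.W2helper37.S1.Filt

/-!
# S1FULL (MP_ce7760_an), pieces P13 (`BTX`) and P14 (`Pl`) (helper37)
-/

open MvPolynomial

namespace Pool.Agent.W2helper37.S1

open Pool.Agent.W2helper74.SOS Pool.Agent.W2helper19.SOS

theorem bTX : BTX := by
  intro n d j hj hjn hlt
  have hB1 : B1 := W2helper12.SOS.pB1
  have hB2 : B2 := W2helper12.SOS.pB2
  have hB3 : B3 := W2helper12.SOS.pB3
  have := d.finV
  have := d.finE
  obtain ⟨T, t0, t1, t2, t3, t4, t5, t6⟩ := common hB1 hB3 d hj hjn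
  have t2' : rk d.V (T * emb j (j + 1) * emb (j - 1) j) = mx d.V (j - 1) := by
    rw [Matrix.mul_assoc, emb_mul (Nat.sub_le j 1)]
    exact t2
  have hj1 : 1 ≤ j := by omega
  have h2 := lev2 d.V T t0 t1
  have h3 := lev3 hj1 d.V (T * emb j (j + 1)) t1 t2'
  have hlev := lev1 hB1 d.V T t1
  have hfinE1 := EE_finite hj1 (rs d.V (T * emb j (j + 1)))
  -- the filtration
  have hs1 := step hj1 (rs d.V T) hlev 1
  have hs2 := step hj1 (rs d.V T) hlev 2
  have hb := fun a => DD_iter_bot hj1 (rs d.V T) hlev a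
  rw [← rs_mul] at hs1 hs2
  have hb' : ∀ a, (EE^[a]) (rs d.V (T * emb j (j + 1))) = ⊥ → (DD^[a]) (rs d.V T) = ⊥ := by
    intro a ha
    apply hb a
    rw [← rs_mul]
    exact ha
  have i1 : (DD^[1]) (rs d.V T) = DD (rs d.V T) := rfl
  have i2 : (EE^[1]) (rs d.V (T * emb j (j + 1))) = EE (rs d.V (T * emb j (j + 1))) := rfl
  have i3 : (EE^[2]) (rs d.V (T * emb j (j + 1))) = EE (EE (rs d.V (T * emb j (j + 1)))) := rfl
  have i4 : (EE^[3]) (rs d.V (T * emb j (j + 1))) =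
    EE (EE (EE (rs d.V (T * emb j (j + 1))))) := rfl
  have i5 : (DD^[1 + 1]) (rs d.V T) = (DD^[2]) (rs d.V T) := rfl
  have i6 : (DD^[2 + 1]) (rs d.V T) = (DD^[3]) (rs d.V T) := rfl
  rw [i1, i2, i5] at hs1
  rw [i3, i6] at hs2
  refine ⟨T * emb j (j + 1), t6, t1, ?_, ?_, ?_⟩
  · by_contra hcon
    have h6 := c0 hB2 n d j hj1 (T * emb j (j + 1)) t6 t1 t2' (by omega)
    have h7 := Submodule.finrank_mono h6
    have h8 : Module.finrank ℂ (rs d.E (T * emb j (j + 1))) = mx d.E j := t4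
    omega
  · intro hz
    have h5 : (EE^[2]) (rs d.V (T * emb j (j + 1))) = ⊥ := by
      rw [i3, Submodule.eq_bot_iff]
      intro f hf
      apply hz
      intro w w'
      have h6 := lf_mul_mem (lf_mul_mem hf w') w
      rw [mul_assoc]
      exact h6
    have h6 := hb' 2 h5
    rw [h6, finrank_bot] at hs1
    omega
  · intro hle
    have h5 := EE2_le hj1 (EE (rs d.V (T * emb j (j + 1)))) hle
    have := EE_finite hj1 (EE (rs d.V (T * emb j (j + 1))))
    have h6 := EE_eq_bot (EE (EE (rs d.V (T * emb j (j + 1))))) (by omega)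
    have h7 := hb' 3 (by rw [i4]; exact h6)
    rw [h7, finrank_bot] at hs2
    omega

theorem pl : Pl := by
  intro n D d Y hY hn _ _ hE3 hk2 hk3
  have hB1 : B1 := W2helper12.SOS.pB1
  have hB2 : B2 := W2helper12.SOS.pB2
  have hB3 : B3 := W2helper12.SOS.pB3
  have := d.finV
  have := d.finE
  obtain ⟨T, hT⟩ := hB3 n 3 6 ![d.V, d.V, d.V, d.E, Y, LF n]
    ![3, 2, 1, 2, 2, 2]
    (by
      intro i
      fin_cases i
      · exact d.finV
      · exact d.finV
      · exact d.finV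
      · exact d.finE
      · exact hY
      · exact (inferInstance : Module.Finite ℂ (LF n)))
    (by
      intro i
      fin_cases i
      · exact le_refl 3
      · exact (by norm_num : 2 ≤ 3)
      · exact (by norm_num : 1 ≤ 3)
      · exact (by norm_num : 2 ≤ 3)
      · exact (by norm_num : 2 ≤ 3)
      · exact (by norm_num : 2 ≤ 3))
  have t0 : rk d.V (T * emb 3 3) = mx d.V 3 := hT 0
  have t1 : rk d.V (T * emb 2 3) = mx d.V 2 := hT 1
  have t2 : rk d.V (T * emb 1 3) = mx d.V 1 := hT 2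
  have t3 : rk d.E (T * emb 2 3) = mx d.E 2 := hT 3
  have t4 : rk Y (T * emb 2 3) = mx Y 2 := hT 4
  have t5 : rk (LF n) (T * emb 2 3) = mx (LF n) 2 := hT 5
  rw [emb_self, Matrix.mul_one] at t0
  rw [rk_LF, mx_LF hB1 (by omega)] at t5
  have t2' : rk d.V (T * emb 2 3 * emb 1 2) = mx d.V 1 := by
    rw [Matrix.mul_assoc, emb_mul (by norm_num)]
    exact t2
  have h2 : Module.finrank ℂ (DD (rs d.V T)) + mx d.V 2 = mx d.V 3 := lev2 (j := 2) d.V T t0 t1
  have h3 : Module.finrank ℂ (EE (rs d.V (T * emb 2 3))) + mx d.V 1 ≤ mx d.V 2 :=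
    lev3 (j := 2) (by norm_num) d.V (T * emb 2 3) t1 t2'
  have hlev := lev1 (j := 2) hB1 d.V T t1
  have hfinE1 := EE_finite (j := 2) (by norm_num) (rs d.V (T * emb 2 3))
  have hfinE2 := EE_finite (j := 2) (by norm_num) (EE (rs d.V (T * emb 2 3)))
  have hs1 := step (j := 2) (by norm_num) (rs d.V T) hlev 1
  have hs2 := step (j := 2) (by norm_num) (rs d.V T) hlev 2
  rw [← rs_mul] at hs1 hs2
  have hb' : ∀ a, (EE^[a]) (rs d.V (T * emb 2 3)) = ⊥ → (DD^[a]) (rs d.V T) = ⊥ := by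
    intro a ha
    apply DD_iter_bot (j := 2) (by norm_num) (rs d.V T) hlev a
    rw [← rs_mul]
    exact ha
  have i1 : (DD^[1]) (rs d.V T) = DD (rs d.V T) := rfl
  have i2 : (EE^[1]) (rs d.V (T * emb 2 3)) = EE (rs d.V (T * emb 2 3)) := rfl
  have i3 : (EE^[2]) (rs d.V (T * emb 2 3)) = EE (EE (rs d.V (T * emb 2 3))) := rfl
  have i4 : (EE^[3]) (rs d.V (T * emb 2 3)) = EE (EE (EE (rs d.V (T * emb 2 3)))) := rfl
  have i5 : (DD^[1 + 1]) (rs d.V T) = (DD^[2]) (rs d.V T) := rfl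
  have i6 : (DD^[2 + 1]) (rs d.V T) = (DD^[3]) (rs d.V T) := rfl
  rw [i1, i2, i5] at hs1
  rw [i3, i6] at hs2
  -- `dim EE_2 ≥ 2`
  have hEE2 : 2 ≤ Module.finrank ℂ (EE (EE (rs d.V (T * emb 2 3)))) := by
    by_contra hcon
    have h6 := EE_eq_bot (EE (EE (rs d.V (T * emb 2 3)))) (by omega)
    have h7 := hb' 3 (by rw [i4]; exact h6)
    rw [h7, finrank_bot] at hs2
    omega
  obtain ⟨f, hf, f', hf', h1, h4, h5⟩ := exists_indep _ hEE2
  have h6 := sup_VF h1 h4 h5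
  have h7 : VF f ⊔ VF f' ≤ EE (rs d.V (T * emb 2 3)) :=
    sup_le (VF_le_of_mem hf) (VF_le_of_mem hf')
  have h8 := Submodule.finrank_mono h7
  have h9 : VF f ⊔ VF f' = EE (rs d.V (T * emb 2 3)) :=
    Submodule.eq_of_le_of_finrank_le h7 (by omega)
  have h10 := c0 hB2 n d 2 (by norm_num) (T * emb 2 3) t5 t1 t2'
    (by show mx d.V 2 - mx d.V 1 ≤ _; omega)
  -- a linear syzygy
  have hf'0 : f' ≠ 0 := fun h => h4 0 (by rw [h]; simp)
  have h11 : VF f ⊓ VF f' ≠ ⊥ := by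
    intro hbot
    have h12 := Submodule.finrank_sup_add_finrank_inf_eq (VF f) (VF f')
    rw [finrank_VF h1, finrank_VF hf'0, hbot, finrank_bot] at h12
    omega
  obtain ⟨p, hp, hp0⟩ := Submodule.exists_mem_ne_zero_of_ne_bot h11
  obtain ⟨⟨w, hw⟩, ⟨w', hw'⟩⟩ := Submodule.mem_inf.1 hp
  have e1 : lf w * f = p := hw
  have e2 : lf w' * f' = p := hw'
  have hw0 : w' ≠ 0 := by
    rintro rfl
    apply hp0
    rw [← e2, lf_zero, zero_mul]
  have hndvd : ¬ lf w' ∣ lf w := by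
    intro h
    obtain ⟨c, hc⟩ := dvd_lf hw0 h
    apply h4 c
    apply mul_left_cancel₀ (lf_ne_zero hw0)
    rw [e2, ← e1, hc]; ring
  have h13 : lf w' ∣ lf w * f := ⟨f', by rw [e1, e2]⟩
  obtain ⟨g, hg⟩ := (lf_dvd_mul hw0 h13).resolve_left hndvd
  have hg' : f' = lf w * g := by
    apply mul_left_cancel₀ (lf_ne_zero hw0)
    rw [e2, ← e1, hg]; ring
  have hlfh : ∀ v : Fin 2 → ℂ, (lf v).IsHomogeneous 1 := by
    intro v
    unfold lf
    refine MvPolynomial.IsHomogeneous.sum _ _ _ fun k _ => ?_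
    have := (isHomogeneous_C (Fin 2) (v k)).mul (isHomogeneous_X ℂ k)
    simpa using this
  refine ⟨T * emb 2 3, g, t4, ?_⟩
  intro e he
  have h14 := h10 he
  rw [← h9] at h14
  obtain ⟨a, ⟨u, hu⟩, b, ⟨v, hv⟩, hab⟩ := Submodule.mem_sup.1 h14
  have hu' : lf u * f = a := hu
  have hv' : lf v * f' = b := hv
  refine ⟨lf u * lf w' + lf v * lf w, ?_, ?_⟩
  · exact ((hlfh u).mul (hlfh w')).add ((hlfh v).mul (hlfh w))
  · rw [← hab, ← hu', ← hv', hg, hg']; ring

end Pool.Agent.W2helper37.S1
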