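import Pool.Agent.W2helper74.SOS.Stm4
import Pool.Agent.W2helper19.SOS.J3
import Pool.Agent.W2helper66.SOS.J2
import Pool.Agent.W2helper12.SOS.J1
import Pool.Agent.W2helper22.SOSG.G

/-!
# S1FULL (MP_ce7760_an), pieces P13 and P14: the filtration lemma and linear syzygies (helper37)
-/

open MvPolynomial

namespace Pool.Agent.W2helper37.S1

open Pool.Agent.W2helper74.SOS Pool.Agent.W2helper19.SOS

/-- polarisation: from the `i`-th powers of linear forms to all products of `i` variables -/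
lemma polar {j : ℕ} (S : Submodule ℂ (Pol j)) : ∀ (i : ℕ) (g : Pol j),
    (∀ w : Fin j → ℂ, lf w ^ i * g ∈ S) → g ∈ (EE^[i]) S := by
  intro i
  induction i with
  | zero =>
    intro g h
    have := h 0
    simpa using this
  | succ i ih =>
    intro g h
    rw [Function.iterate_succ_apply']
    rw [mem_EE]
    intro k
    apply ih
    intro w
    have h1 := W2helper66.SOS.coef S (i + 1 + 1)
      (fun l => X k ^ l * lf w ^ (i + 1 - l) * C (((i + 1).choose l : ℕ) : ℂ) * g) (by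
        intro t
        have := h (t • Pi.single k 1 + w)
        rw [lf_add, lf_smul, lf_single, add_pow, Finset.sum_mul] at this
        convert this using 1
        refine Finset.sum_congr rfl (fun l _ => ?_)
        rw [smul_eq_C_mul, smul_eq_C_mul, mul_pow, map_pow]
        simp only [map_natCast]
        ring) 1 (by omega)
    have e : i + 1 - 1 = i := by omega
    rw [e, Nat.choose_one_right, pow_one] at h1
    have h3 := S.smul_mem ((((i + 1 : ℕ) : ℂ))⁻¹) h1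
    have hne : (((i + 1 : ℕ) : ℂ)) ≠ 0 := Nat.cast_ne_zero.2 (by omega)
    have e2 : X k * lf w ^ i * C ((i + 1 : ℕ) : ℂ) * g =
        ((i + 1 : ℕ) : ℂ) • (lf w ^ i * (X k * g)) := by
      rw [smul_eq_C_mul]; ring
    rw [e2, smul_smul, inv_mul_cancel₀ hne, one_smul] at h3
    exact h3

lemma EE_mono {j : ℕ} {S S' : Submodule ℂ (Pol j)} (h : S ≤ S') : EE S ≤ EE S' :=
  fun _ hf i => h (hf i)

lemma EE_bot {j : ℕ} (hj : 1 ≤ j) : EE (⊥ : Submodule ℂ (Pol j)) = ⊥ := by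
  rw [Submodule.eq_bot_iff]
  intro f hf
  have h1 := hf ⟨0, hj⟩
  rw [Submodule.mem_bot, mul_eq_zero] at h1
  exact h1.resolve_left (X_ne_zero _)

lemma mem_DD_iter {j : ℕ} (U : Submodule ℂ (Pol (j + 1))) : ∀ (i : ℕ) (g : Pol (j + 1)),
    g ∈ (DD^[i]) U ↔ X (Fin.last j) ^ i * g ∈ U := by
  intro i
  induction i with
  | zero => intro g; simp
  | succ i ih =>
    intro g
    rw [Function.iterate_succ_apply', mem_DD, ih, pow_succ, mul_assoc]

/-- elements of `U` divisible by `z^i` -/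
lemma rs_DD_iter {j : ℕ} (U : Submodule ℂ (Pol (j + 1))) [Module.Finite ℂ U]
    (hU : ∀ T : Matrix (Fin (j + 1)) (Fin j) ℂ, rk U T ≤ rk U (emb j (j + 1))) (i : ℕ) :
    rs ((DD^[i]) U) (emb j (j + 1)) ≤ (EE^[i]) (rs U (emb j (j + 1))) := by
  rintro q hq
  obtain ⟨g, hg, rfl⟩ := mem_rs.1 hq
  apply polar
  intro w
  exact W2helper66.SOS.keyK U hU i g ((mem_DD_iter U i g).1 hg) w

/-- if `EE^[a] U₀ = 0` then no nonzero element of `U` is divisible by `z^a` -/
lemma DD_iter_bot {j : ℕ} (hj : 1 ≤ j) (U : Submodule ℂ (Pol (j + 1))) [Module.Finite ℂ U]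
    (hU : ∀ T : Matrix (Fin (j + 1)) (Fin j) ℂ, rk U T ≤ rk U (emb j (j + 1))) (a : ℕ)
    (ha : (EE^[a]) (rs U (emb j (j + 1))) = ⊥) : (DD^[a]) U = ⊥ := by
  have hge : ∀ b, (EE^[b + a]) (rs U (emb j (j + 1))) = ⊥ := by
    intro b
    induction b with
    | zero => rw [zero_add]; exact ha
    | succ b ih =>
      have e : b + 1 + a = (b + a) + 1 := by omega
      rw [e, Function.iterate_succ_apply', ih, EE_bot hj]
  rw [Submodule.eq_bot_iff]
  intro g hg
  by_contra hg0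
  have hXp : Prime (X (Fin.last j) : Pol (j + 1)) := MvPolynomial.X_prime
  have hfm : FiniteMultiplicity (X (Fin.last j) : Pol (j + 1)) g :=
    FiniteMultiplicity.of_not_isUnit hXp.not_isUnit hg0
  obtain ⟨g', hpg, hng⟩ := hfm.exists_eq_pow_mul_and_not_dvd
  set b := multiplicity (X (Fin.last j) : Pol (j + 1)) g with hb
  have h1 : g' ∈ (DD^[b + a]) U := by
    rw [mem_DD_iter]
    rw [mem_DD_iter, hpg] at hg
    rw [pow_add, mul_comm (X (Fin.last j) ^ b), mul_assoc]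
    exact hg
  have h2 := rs_DD_iter U hU (b + a) (res_mem h1)
  rw [hge b, Submodule.mem_bot] at h2
  exact hng (res_emb_eq_zero h2)

instance DD_iter_finite {j : ℕ} (U : Submodule ℂ (Pol (j + 1))) [Module.Finite ℂ U] (i : ℕ) :
    Module.Finite ℂ ((DD^[i]) U) := by
  induction i with
  | zero => simpa
  | succ i ih =>
    rw [Function.iterate_succ_apply']
    infer_instance

lemma EE_iter_finite {j : ℕ} (hj : 1 ≤ j) (U : Submodule ℂ (Pol j)) [Module.Finite ℂ U] (i : ℕ) :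
    Module.Finite ℂ ((EE^[i]) U) := by
  induction i with
  | zero => simpa
  | succ i ih =>
    rw [Function.iterate_succ_apply']
    exact EE_finite hj _

/-- one step of the filtration -/
lemma step {j : ℕ} (hj : 1 ≤ j) (U : Submodule ℂ (Pol (j + 1))) [Module.Finite ℂ U]
    (hU : ∀ T : Matrix (Fin (j + 1)) (Fin j) ℂ, rk U T ≤ rk U (emb j (j + 1))) (i : ℕ) :
    Module.finrank ℂ ((DD^[i]) U) ≤ Module.finrank ℂ ((EE^[i]) (rs U (emb j (j + 1)))) +
      Module.finrank ℂ ((DD^[i + 1]) U) := by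
  have h1 := finrank_DD ((DD^[i]) U)
  haveI := EE_iter_finite hj (rs U (emb j (j + 1))) i
  have h2 := Submodule.finrank_mono (rs_DD_iter U hU i)
  rw [Function.iterate_succ_apply']
  have h3 : rk ((DD^[i]) U) (emb j (j + 1)) =
    Module.finrank ℂ (rs ((DD^[i]) U) (emb j (j + 1))) := rfl
  omega

/-- proportionality of linear forms -/
lemma dvd_lf {n : ℕ} {w w' : Fin n → ℂ} (hw : w ≠ 0) (h : lf w ∣ lf w') :
    ∃ c : ℂ, lf w' = C c * lf w := by
  obtain ⟨i, hi⟩ : ∃ i, w i ≠ 0 := by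
    by_contra hne
    push Not at hne
    exact hw (funext hne)
  rw [W2helper22.SOSG.dvd_iff w i hi, W2helper22.SOSG.sb_lf, sub_eq_zero] at h
  exact ⟨_, h⟩

lemma lf_dvd_mul {n : ℕ} {w : Fin n → ℂ} (hw : w ≠ 0) {p q : Pol n} (h : lf w ∣ p * q) :
    lf w ∣ p ∨ lf w ∣ q := by
  obtain ⟨i, hi⟩ : ∃ i, w i ≠ 0 := by
    by_contra hne
    push Not at hne
    exact hw (funext hne)
  exact W2helper22.SOSG.dvd_mul w i hi p q h

/-- the intersection of `V_1 f` and `V_1 f'` has dimension at most one -/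
lemma inf_VF {j : ℕ} {f f' : Pol j} (hf : f ≠ 0) (hf' : ∀ c : ℂ, f' ≠ C c * f)
    (hf'' : ∀ c : ℂ, f ≠ C c * f') :
    Module.finrank ℂ ↥(VF f ⊓ VF f') ≤ 1 := by
  have hf'0 : f' ≠ 0 := fun h => hf' 0 (by rw [h]; simp)
  by_cases h0 : VF f ⊓ VF f' = ⊥
  · rw [h0, finrank_bot]; exact Nat.zero_le _
  obtain ⟨p, hp, hp0⟩ := Submodule.exists_mem_ne_zero_of_ne_bot h0
  obtain ⟨⟨w, hw⟩, ⟨w', hw'⟩⟩ := Submodule.mem_inf.1 hp
  have hw0 : w ≠ 0 := by
    rintro rfl
    apply hp0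
    rw [← hw]
    show lf (0 : Fin j → ℂ) * f = 0
    rw [lf_zero, zero_mul]
  have e1 : lf w * f = p := hw
  have e2 : lf w' * f' = p := hw'
  have hndvd : ¬ lf w ∣ lf w' := by
    intro h
    obtain ⟨c, hc⟩ := dvd_lf hw0 h
    apply hf'' c
    apply mul_left_cancel₀ (lf_ne_zero hw0)
    rw [e1, ← e2, hc]; ring
  refine finrank_le_one (⟨p, hp⟩ : ↥(VF f ⊓ VF f')) ?_
  rintro ⟨q, hq⟩
  obtain ⟨⟨v, hv⟩, ⟨v', hv'⟩⟩ := Submodule.mem_inf.1 hq
  have e3 : lf v * f = q := hv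
  have e4 : lf v' * f' = q := hv'
  have h5 : lf w * lf v' = lf w' * lf v := by
    apply mul_right_cancel₀ (mul_ne_zero hf hf'0)
    calc lf w * lf v' * (f * f') = (lf w * f) * (lf v' * f') := by ring
      _ = (lf w' * f') * (lf v * f) := by rw [e1, e4, e2, e3]
      _ = _ := by ring
  have h6 : lf w ∣ lf w' * lf v := ⟨lf v', h5.symm⟩
  rcases lf_dvd_mul hw0 h6 with h7 | h7
  · exact absurd h7 hndvd
  · obtain ⟨c, hc⟩ := dvd_lf hw0 h7
    refine ⟨c, ?_⟩
    apply Subtype.ext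
    show c • p = q
    rw [← e3, hc, smul_eq_C_mul, ← e1]; ring

/-- linear syzygies: the span of `V_1 f` and `V_1 f'` has dimension at least `2j - 1` -/
lemma sup_VF {j : ℕ} {f f' : Pol j} (hf : f ≠ 0) (hf' : ∀ c : ℂ, f' ≠ C c * f)
    (hf'' : ∀ c : ℂ, f ≠ C c * f') :
    2 * j ≤ Module.finrank ℂ ↥(VF f ⊔ VF f') + 1 := by
  have hf'0 : f' ≠ 0 := fun h => hf' 0 (by rw [h]; simp)
  have h1 := Submodule.finrank_sup_add_finrank_inf_eq (VF f) (VF f')
  rw [finrank_VF hf, finrank_VF hf'0] at h1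
  have h2 := inf_VF hf hf' hf''
  omega

lemma VF_le_of_mem {j : ℕ} {S : Submodule ℂ (Pol j)} {f : Pol j} (hf : f ∈ EE S) : VF f ≤ S := by
  rintro p ⟨w, rfl⟩
  exact lf_mul_mem hf w

/-- two independent elements of a space of dimension at least two -/
lemma exists_indep {j : ℕ} (S : Submodule ℂ (Pol j)) (h : 2 ≤ Module.finrank ℂ S) :
    ∃ f ∈ S, ∃ f' ∈ S, f ≠ 0 ∧ (∀ c : ℂ, f' ≠ C c * f) ∧ (∀ c : ℂ, f ≠ C c * f') := by
  have hfin : Module.Finite ℂ S := Module.finite_of_finrank_pos (by omega)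
  have hne : S ≠ ⊥ := by
    rintro rfl
    rw [finrank_bot] at h
    omega
  obtain ⟨f, hf, hf0⟩ := Submodule.exists_mem_ne_zero_of_ne_bot hne
  have h2 : ¬ S ≤ Submodule.span ℂ {f} := by
    intro hle
    have h3 := Submodule.finrank_mono hle
    rw [finrank_span_singleton hf0] at h3
    omega
  obtain ⟨f', hf', hn⟩ := Set.not_subset.1 h2
  have h4 : ∀ c : ℂ, f' ≠ C c * f := by
    intro c hc
    apply hn
    rw [hc, ← smul_eq_C_mul]
    exact Submodule.smul_mem _ _ (Submodule.mem_span_singleton_self f)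
  refine ⟨f, hf, f', hf', hf0, h4, ?_⟩
  intro c hc
  by_cases hc0 : c = 0
  · apply hf0
    rw [hc, hc0]; simp
  · apply h4 c⁻¹
    rw [hc, ← mul_assoc, ← map_mul, inv_mul_cancel₀ hc0]
    simp

/-- if `dim EE_1 ≤ 2j - 2` then `dim EE_2 ≤ 1` -/
lemma EE2_le {j : ℕ} (hj : 1 ≤ j) (S : Submodule ℂ (Pol j)) [Module.Finite ℂ S]
    (h : Module.finrank ℂ S + 2 ≤ 2 * j) : Module.finrank ℂ (EE S) ≤ 1 := by
  by_contra hcon
  push Not at hcon
  obtain ⟨f, hf, f', hf', h1, h2, h3⟩ := exists_indep (EE S) hcon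
  have h4 := sup_VF h1 h2 h3
  have h5 : VF f ⊔ VF f' ≤ S := sup_le (VF_le_of_mem hf) (VF_le_of_mem hf')
  have h6 := Submodule.finrank_mono h5
  omega

/-- if `dim S < j` then `EE S = 0` -/
lemma EE_eq_bot {j : ℕ} (S : Submodule ℂ (Pol j)) [Module.Finite ℂ S]
    (h : Module.finrank ℂ S < j) : EE S = ⊥ := by
  rw [Submodule.eq_bot_iff]
  intro f hf
  by_contra hf0
  have h5 := Submodule.finrank_mono (VF_le_of_mem hf)
  rw [finrank_VF hf0] at h5
  omega

end Pool.Agent.W2helper37.S1
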